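import Pool.Agent.FGT.Stmts

/-!
# FGT, row RDL: the reduction to good groups
-/

set_option autoImplicit false

namespace Pool.Agent.FGT.H49

open Pool.Agent.FGT Pool.Agent.H22.CIG Pool.Agent.H67.CIP Pool.Agent.H50.CIG

universe u v

theorem tors_of {G : Type u} [Group G] (h : ¬ CI G) : Tors G := by
  intro g
  by_contra hg
  have hinf : (Subgroup.zpowers g : Set G).Infinite := infinite_zpowers.mpr hg
  refine h ⟨Subgroup.zpowers g, Subgroup.zpowers g, hinf, hinf, ?_⟩
  rintro _ ⟨i, rfl⟩ _ ⟨j, rfl⟩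
  show g ^ i * g ^ j = g ^ j * g ^ i
  rw [← zpow_add, ← zpow_add, add_comm]

/-- a set with a finite image under a homomorphism with finite kernel is finite -/
theorem fin_of_image {G L : Type u} [Group G] [Group L] (f : G →* L)
    (hk : (f.ker : Set G).Finite) (S : Set G) (hS : (f '' S).Finite) : S.Finite := by
  refine Set.Finite.of_finite_fibers f hS ?_
  rintro _ ⟨x, -, rfl⟩
  refine (hk.image fun z => x * z).subset ?_
  rintro y ⟨-, hy⟩
  have hy' : f y = f x := hy
  refine ⟨x⁻¹ * y, ?_, by simp⟩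
  show x⁻¹ * y ∈ f.ker
  rw [MonoidHom.mem_ker, map_mul, map_inv, hy', inv_mul_cancel]

theorem fg_map {G L : Type u} [Group G] [Group L] (f : G →* L) (F : Subgroup G) (hF : F.FG) :
    (F.map f).FG := by
  rw [← Group.fg_iff_subgroup_fg] at hF ⊢
  exact Group.fg_of_surjective (f.subgroupMap_surjective F)

theorem fg_subgroupOf {G : Type u} [Group G] (F H : Subgroup G) (h : F ≤ H) (hF : F.FG) :
    (F.subgroupOf H).FG := by
  rw [← Group.fg_iff_subgroup_fg] at hF ⊢
  exact Group.fg_of_surjective (f := (Subgroup.subgroupOfEquivOfLe h).symm.toMonoidHom)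
    (Subgroup.subgroupOfEquivOfLe h).symm.surjective

theorem nlfs_quot {G L : Type u} [Group G] [Group L] (hG : NLFS G) (H : Subgroup G) (f : H →* L)
    (hf : Function.Surjective f) (hk : (f.ker : Set H).Finite) : NLFS L := by
  intro K hK
  have h1 : (((K.comap f).map H.subtype : Subgroup G) : Set G).Finite := by
    refine hG _ fun F hF hFG => ?_
    have hFH : F ≤ H := hF.trans (by
      rintro _ ⟨x, -, rfl⟩
      exact x.2)
    have h2 : (((F.subgroupOf H).map f : Subgroup L) : Set L).Finite := by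
      refine hK _ ?_ (fg_map f _ (fg_subgroupOf F H hFH hFG))
      rintro _ ⟨x, hx, rfl⟩
      have hx' : (x : G) ∈ F := hx
      obtain ⟨y, hy, hyx⟩ := hF hx'
      have hyx' : y = x := Subtype.ext hyx
      rw [← hyx']
      exact hy
    have h3 : ((F.subgroupOf H : Subgroup H) : Set H).Finite := by
      refine fin_of_image f hk _ ?_
      rw [← Subgroup.coe_map]
      exact h2
    refine (h3.image (fun x : H => (x : G))).subset ?_
    intro x hx
    exact ⟨⟨x, hFH hx⟩, hx, rfl⟩
  have h2 : ((K.comap f : Subgroup H) : Set H).Finite := by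
    refine Set.Finite.of_finite_image ?_ (Subtype.val_injective.injOn)
    rw [Subgroup.coe_map] at h1
    exact h1
  refine (h2.image f).subset ?_
  intro y hy
  obtain ⟨x, rfl⟩ := hf y
  exact ⟨x, hy, rfl⟩

theorem rdl (hINV : InvStmt.{u}) (hFOS : FosStmt.{u}) (hFOQ : FoqStmt.{u}) (hRAL : RalStmt.{u})
    (hEMB : EmbStmt.{u, v}) : RdlStmt.{u, v} := by
  intro X _ _ T G _ _ _ p hGinf hCI hNL hFol
  have hT : Tors G := tors_of hCI
  obtain ⟨A, hAfin, hAC, hCinf, hA⟩ := hRAL G hGinf hCI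
  -- a finitely generated infinite subgroup of the centralizer
  obtain ⟨H₀, hH₀C, hH₀fg, hH₀inf⟩ : ∃ H₀ : Subgroup G, H₀ ≤ Subgroup.centralizer (A : Set G) ∧
      H₀.FG ∧ (H₀ : Set G).Infinite := by
    by_contra hcon
    push Not at hcon
    exact hCinf (hNL _ fun H h1 h2 => hcon H h1 h2)
  have hAfg : A.FG := by
    rw [← Group.fg_iff_subgroup_fg]
    have : Finite A := hAfin
    infer_instance
  set H : Subgroup G := H₀ ⊔ A with hHdef
  have hHfg : H.FG := hH₀fg.sup hAfg
  have hHC : H ≤ Subgroup.centralizer (A : Set G) := sup_le hH₀C hAC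
  have hHinf : (H : Set G).Infinite := hH₀inf.mono (by
    intro x hx
    exact (le_sup_left : H₀ ≤ H₀ ⊔ A) hx)
  have hAH : A ≤ H := le_sup_right
  have hcomm : ∀ a ∈ A, ∀ h ∈ H, a * h = h * a := by
    intro a ha h hh
    exact Subgroup.mem_centralizer_iff.mp (hHC hh) a ha
  have hnorm : (A.subgroupOf H).Normal := by
    refine ⟨fun n hn g => ?_⟩
    have hn' : (n : G) ∈ A := hn
    have h1 : g * n * g⁻¹ = n := by
      apply Subtype.ext
      show (g : G) * n * (g : G)⁻¹ = n
      rw [← hcomm _ hn' g g.2, mul_inv_cancel_right]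
    rw [h1]
    exact hn
  have hfin : ∀ x ∈ H, x ∉ A → {y : G | y ∈ H ∧ y * x * y⁻¹ * x⁻¹ ∈ A}.Finite := by
    intro x hx hxA
    refine (hA x (hHC hx) hxA).subset ?_
    rintro y ⟨hy, hy'⟩
    exact ⟨hHC hy, hy'⟩
  obtain ⟨i, hi, hpi⟩ := hEMB X T G p hNL A H hAfin hAH hcomm hHinf hfin
  -- the quotient
  let f : H →* (H ⧸ A.subgroupOf H) := QuotientGroup.mk' _
  have hfs : Function.Surjective f := QuotientGroup.mk'_surjective _
  have hker : f.ker = A.subgroupOf H := QuotientGroup.ker_mk' _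
  have hkfin : (f.ker : Set H).Finite := by
    rw [hker]
    have h1 : ((fun x : H => (x : G)) ⁻¹' (A : Set G)).Finite :=
      hAfin.preimage (Subtype.val_injective.injOn)
    exact h1
  have hFolL : Fol (H ⧸ A.subgroupOf H) := hFOQ H _ f hfs (hFOS G hFol H)
  have hLinf : Infinite (H ⧸ A.subgroupOf H) := by
    rw [← not_finite_iff_infinite]
    intro hLf
    have h1 : (Set.univ : Set H).Finite := fin_of_image f hkfin _ (Set.toFinite _)
    apply hHinf
    refine (h1.image (fun x : H => (x : G))).subset ?_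
    intro x hx
    exact ⟨⟨x, hx⟩, Set.mem_univ _, rfl⟩
  have hLt : Tors (H ⧸ A.subgroupOf H) := by
    intro g
    obtain ⟨x, rfl⟩ := hfs g
    have h1 : IsOfFinOrder x := by
      have h2 := hT (x : G)
      rw [isOfFinOrder_iff_pow_eq_one] at h2 ⊢
      obtain ⟨n, hn, hx⟩ := h2
      exact ⟨n, hn, Subtype.ext (by simpa using hx)⟩
    exact MonoidHom.isOfFinOrder f h1
  have hLc : FCen (H ⧸ A.subgroupOf H) := by
    intro g hg
    obtain ⟨x, rfl⟩ := hfs g
    have hxA : (x : G) ∉ A := by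
      intro h
      apply hg
      have : x ∈ f.ker := by rw [hker]; exact h
      exact this
    have h1 := hfin x x.2 hxA
    have h2 : {y : H | (y : G) ∈ {y : G | y ∈ H ∧ y * x * y⁻¹ * (x : G)⁻¹ ∈ A}}.Finite :=
      h1.preimage (Subtype.val_injective.injOn)
    refine (h2.image f).subset ?_
    intro h hh
    obtain ⟨y, rfl⟩ := hfs h
    refine ⟨y, ⟨y.2, ?_⟩, rfl⟩
    have hh' : f y * f x = f x * f y := hh
    have h3 : y * x * y⁻¹ * x⁻¹ ∈ f.ker := by
      rw [MonoidHom.mem_ker, map_mul, map_mul, map_mul, map_inv, map_inv, hh',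
        mul_inv_cancel_right, mul_inv_cancel]
    rw [hker] at h3
    exact h3
  have hLn : NLFS (H ⧸ A.subgroupOf H) := nlfs_quot hNL H f hfs hkfin
  have hLfg : Group.FG (H ⧸ A.subgroupOf H) := by
    have : Group.FG H := (Group.fg_iff_subgroup_fg H).mpr hHfg
    exact Group.fg_of_surjective hfs
  exact ⟨H ⧸ A.subgroupOf H, _, i, hi, hpi,
    ⟨hLinf, hLfg, hLt, hLc, hLn, hINV _ hLinf hLt hLc hFolL⟩, hFolL⟩

end Pool.Agent.FGT.H49
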